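import Pool.Agent.J4H20.TR.Stm

set_option autoImplicit false

namespace Pool.Agent.J4H36.TR

open Polynomial NumberField nonZeroDivisors Pool.Agent.W289.CG Pool.Agent.J4H20.TR

/-- one after the other -/
theorem exists_inj (Pr : ℕ → ℕ → Prop) (h : ∀ j B, ∃ q, B < q ∧ Pr j q) (B₀ : ℕ) :
    ∃ u : ℕ → ℕ, Function.Injective u ∧ ∀ j, B₀ < u j ∧ Pr j (u j) := by
  choose F hF1 hF2 using h
  let u : ℕ → ℕ := fun j => Nat.rec (F 0 B₀) (fun j v => F (j + 1) v) j
  have hu : ∀ j, u (j + 1) = F (j + 1) (u j) := fun j => rfl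
  have hmono : StrictMono u := strictMono_nat_of_lt_succ (fun j => by rw [hu]; exact hF1 _ _)
  refine ⟨u, hmono.injective, ?_⟩
  intro j
  constructor
  · exact lt_of_lt_of_le (hF1 0 B₀) (hmono.monotone (Nat.zero_le j))
  · cases j with
    | zero => exact hF2 0 B₀
    | succ j => rw [hu]; exact hF2 _ _

theorem isSquare_prod_of {q : ℕ} [Fact q.Prime] {ι : Type} [Fintype ι] [DecidableEq ι]
    (v : ι → ZMod q) (J : Finset ι) (hJ : J.card = 2) (hv : ∀ j, v j ≠ 0)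
    (hs : ∀ j, IsSquare (v j) ↔ j ∉ J) : IsSquare (∏ j, v j) := by
  have h0 : ∏ j, v j ≠ 0 := Finset.prod_ne_zero_iff.2 (fun j _ => hv j)
  rw [← quadraticChar_one_iff_isSquare h0, map_prod]
  have h1 : ∀ j, quadraticChar (ZMod q) (v j) = if j ∈ J then -1 else 1 := by
    intro j
    split_ifs with h
    · rw [quadraticChar_neg_one_iff_not_isSquare, hs j]
      simpa using h
    · rw [quadraticChar_one_iff_isSquare (hv j), hs j]
      exact h
  rw [Finset.prod_congr rfl (fun j _ => h1 j), Finset.prod_ite]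
  simp [hJ]

theorem isSquare_prod_all {q : ℕ} {ι : Type} [Fintype ι]
    (v : ι → ZMod q) (hs : ∀ j, IsSquare (v j)) : IsSquare (∏ j, v j) := by
  choose w hw using hs
  exact ⟨∏ j, w j, by rw [← Finset.prod_mul_distrib]; exact Finset.prod_congr rfl (fun j _ => hw j)⟩

theorem not_dvd_of_lt {q : ℕ} {z : ℤ} (hz : z ≠ 0) (h : z.natAbs < q) : ¬ (q : ℤ) ∣ z := by
  intro hd
  have h1 := Int.natCast_dvd.1 hd
  have := Nat.le_of_dvd (Int.natAbs_pos.2 hz) h1
  omega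

theorem t_CH : S_T1 → S_T2 → S_T3 → S_T4 → S_CH := by
  classical
  intro hT1 hT2 hT3 hT4 n k D α β N hα hαβ
  -- the product of the differences
  set M₀ : ℤ := ∏ i, ∏ j, (if i = j then 1 else D.a i - D.a j) with hM₀
  have hM₀0 : M₀ ≠ 0 := by
    rw [hM₀]
    refine Finset.prod_ne_zero_iff.2 (fun i _ => Finset.prod_ne_zero_iff.2 (fun j _ => ?_))
    split_ifs with h
    · exact one_ne_zero
    · exact sub_ne_zero.2 (fun he => h (D.ha he))
  have hdvd : ∀ i j, i ≠ j → D.a i - D.a j ∣ M₀ := by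
    intro i j hij
    have h1 : (∏ j, (if i = j then 1 else D.a i - D.a j)) ∣ M₀ :=
      Finset.dvd_prod_of_mem _ (Finset.mem_univ i)
    have h2 : (if i = j then 1 else D.a i - D.a j) ∣ ∏ j, (if i = j then 1 else D.a i - D.a j) :=
      Finset.dvd_prod_of_mem (fun j => (if i = j then 1 else D.a i - D.a j)) (Finset.mem_univ j)
    rw [if_neg hij] at h2
    exact h2.trans h1
  have h2M₀ : (2 * M₀) ≠ 0 := mul_ne_zero two_ne_zero hM₀0
  obtain ⟨q₀, hq₀1, hq₀⟩ := Nat.exists_infinite_primes (N + (2 * M₀).natAbs + 1)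
  obtain ⟨X₀, hX₀⟩ := hT3 n k D
  -- the points
  have hA : ∀ i : Fin k, ∃ x : ℤ, X₀ < x ∧ ∀ B : ℕ, ∃ q : ℕ, q.Prime ∧ B < q ∧ q % 4 = 1 ∧
      ∀ j, ((x - D.a j : ℤ) : ZMod q) ≠ 0 ∧ (IsSquare ((x - D.a j : ℤ) : ZMod q) ↔
        j ∉ ({i.castSucc.castSucc, (Fin.last k).castSucc} : Finset (Fin (k + 2)))) :=
    fun i => hT1 (k + 2) D.a _ X₀ D.ha
  choose x hx1 hx2 using hA
  set x' : ℤ := |X₀| + ∑ j, |D.a j| + 1 with hx'
  have hx'0 : X₀ < x' := by
    have h1 := le_abs_self X₀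
    have h2 : 0 ≤ ∑ j, |D.a j| := Finset.sum_nonneg (fun j _ => abs_nonneg _)
    omega
  have hx'a : ∀ j, D.a j < x' := by
    intro j
    have h1 := le_abs_self (D.a j)
    have h2 : |D.a j| ≤ ∑ j, |D.a j| :=
      Finset.single_le_sum (f := fun j => |D.a j|) (fun j _ => abs_nonneg _) (Finset.mem_univ j)
    have h3 := abs_nonneg X₀
    omega
  -- all points in one sequence
  let X : ℕ → ℤ := fun j => if h : j < k then x ⟨j, h⟩ else x'
  have hXX : ∀ j, X₀ < X j := by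
    intro j
    by_cases h : j < k
    · simp only [X, h, dif_pos]; exact hx1 _
    · simp only [X, h, dif_neg, not_false_iff]; exact hx'0
  have hB : ∀ j, ∃ B : ℕ, ∀ (q : ℕ) [Fact q.Prime], B < q →
      IsSquare (∏ t, ((X j - D.a t : ℤ) : ZMod q)) → ∃ s : ZMod q, ∀ c M : ℤ, ¬ (q : ℤ) ∣ M →
      (c : ZMod q) = s * (M : ZMod q) → (q : ℤ) ∣ (hh D.g D.r c M).eval (X j) ∧
        ¬ (q : ℤ) ∣ (derivative (hh D.g D.r c M)).eval (X j) := fun j => hX₀ (X j) (hXX j)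
  choose B hB using hB
  -- the primes
  let Pr : ℕ → ℕ → Prop := fun j q => q.Prime ∧ B j < q ∧
    (∀ i : Fin k, (i : ℕ) = j → q % 4 = 1 ∧
      ∀ t, ((X j - D.a t : ℤ) : ZMod q) ≠ 0 ∧ (IsSquare ((X j - D.a t : ℤ) : ZMod q) ↔
        t ∉ ({i.castSucc.castSucc, (Fin.last k).castSucc} : Finset (Fin (k + 2))))) ∧
    (k ≤ j → q % 4 = 3 ∧ ∀ t, IsSquare ((X j - D.a t : ℤ) : ZMod q))
  have hPr : ∀ j C, ∃ q, C < q ∧ Pr j q := by
    intro j C
    by_cases h : j < k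
    · obtain ⟨q, h1, h2, h3, h4⟩ := hx2 ⟨j, h⟩ (max C (B j))
      have hX : X j = x ⟨j, h⟩ := by simp only [X, h, dif_pos]
      refine ⟨q, lt_of_le_of_lt (le_max_left _ _) h2, h1, lt_of_le_of_lt (le_max_right _ _) h2,
        ?_, fun h5 => by omega⟩
      intro i hi
      have : i = ⟨j, h⟩ := Fin.ext hi
      subst this
      rw [hX]
      exact ⟨h3, h4⟩
    · obtain ⟨q, h1, h2, h3, h4⟩ := hT2 (k + 2) D.a x' hx'a (max C (B j))
      have hX : X j = x' := by simp only [X, h, dif_neg, not_false_iff]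
      refine ⟨q, lt_of_le_of_lt (le_max_left _ _) h2, h1, lt_of_le_of_lt (le_max_right _ _) h2,
        fun i hi => ?_, fun _ => ?_⟩
      · exact absurd (hi ▸ i.2) h
      · rw [hX]; exact ⟨h3, h4⟩
  obtain ⟨u, huinj, hu⟩ := exists_inj Pr hPr (q₀ + (2 * M₀).natAbs)
  have hs : ∀ q : ℕ, ∃ s : ZMod q, ∀ j, u j = q → ∀ c M : ℤ, ¬ (q : ℤ) ∣ M →
      (c : ZMod q) = s * (M : ZMod q) → (q : ℤ) ∣ (hh D.g D.r c M).eval (X j) ∧
        ¬ (q : ℤ) ∣ (derivative (hh D.g D.r c M)).eval (X j) := by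
    intro q
    by_cases h : ∃ j, u j = q
    · obtain ⟨j, rfl⟩ := h
      have hj := (hu j).2
      haveI : Fact (u j).Prime := ⟨hj.1⟩
      have hsq : IsSquare (∏ t, ((X j - D.a t : ℤ) : ZMod (u j))) := by
        by_cases h : j < k
        · obtain ⟨_, h4⟩ := hj.2.2.1 ⟨j, h⟩ rfl
          refine isSquare_prod_of _ _ ?_ (fun t => (h4 t).1) (fun t => (h4 t).2)
          rw [Finset.card_pair]
          intro he
          have := congrArg Fin.val he
          simp at this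
          omega
        · exact isSquare_prod_all _ (hj.2.2.2 (by omega)).2
      obtain ⟨s, hs⟩ := hB j (u j) hj.2.1 hsq
      refine ⟨s, ?_⟩
      intro j' hj'
      rw [huinj hj']
      exact hs
    · exact ⟨0, fun j hj => absurd ⟨j, hj⟩ h⟩
  choose s hs using hs
  obtain ⟨c, M, hc, hM, hcop, hM₀M, hq₀M, hq₀M2, hq₀c, hαc, hβc, hL⟩ :=
    hT4 M₀ q₀ ((Finset.range (k + 1)).image u) s α β hM₀0 hq₀
      (not_dvd_of_lt h2M₀ (by omega)) (by
        intro q hq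
        obtain ⟨j, hj, rfl⟩ := Finset.mem_image.1 hq
        have h1 := (hu j).1
        exact ⟨(hu j).2.1, not_dvd_of_lt h2M₀ (by omega), by omega⟩) hα hαβ
  have hroot : ∀ j, j ≤ k → ((u j : ℕ) : ℤ) ∣ (hh D.g D.r c M).eval (X j) ∧
        ¬ ((u j : ℕ) : ℤ) ∣ (derivative (hh D.g D.r c M)).eval (X j) := by
    intro j hj
    obtain ⟨h1, h2⟩ := hL (u j) (Finset.mem_image.2 ⟨j, Finset.mem_range.2 (by omega), rfl⟩)
    exact hs (u j) j rfl c M h1 h2
  refine ⟨c, M, q₀, hc, hM, hcop, fun i j hij => (hdvd i j hij).trans hM₀M, hq₀, by omega, hq₀M,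
    hq₀M2, hq₀c, hαc, hβc, ?_, ?_⟩
  · intro i
    have hj := (hu i).2
    obtain ⟨h3, h4⟩ := hj.2.2.1 i rfl
    refine ⟨u i, X i, hj.1, h3, (hroot i i.2.le).1, (hroot i i.2.le).2, fun t => (h4 t).1, ?_⟩
    intro t
    rw [(h4 t).2]
    simp
  · have hj := (hu k).2
    exact ⟨u k, X k, hj.1, (hj.2.2.2 le_rfl).1, (hroot k le_rfl).1, (hroot k le_rfl).2⟩

end Pool.Agent.J4H36.TR
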